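import Pool.Agent.H83.UE.Targets

/-!
# (FB) bound for the direct image.  helper34
-/

set_option autoImplicit false

open Polynomial MeasureTheory Filter Topology
open scoped OnePoint ComplexConjugate ComplexOrder Laplacian ENNReal
open Pool.Agent.H83.UE

namespace Pool.Agent.H34.UDA

theorem en_prod {ι : Type} (s : Finset ι) (f : ι → ℂ) : ‖∏ i ∈ s, f i‖ₑ = ∏ i ∈ s, ‖f i‖ₑ := by
  classical
  induction s using Finset.induction_on with
  | empty => simp
  | insert a s ha ih => rw [Finset.prod_insert ha, Finset.prod_insert ha, enorm_mul, ih]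

theorem en_conj (z : ℂ) : ‖conj z‖ₑ = ‖z‖ₑ := by
  rw [← ofReal_norm, ← ofReal_norm, RCLike.norm_conj]

theorem en_nat (n : ℕ) : ‖(n : ℂ)‖ₑ = (n : ℝ≥0∞) := by
  rw [← ofReal_norm, Complex.norm_natCast, ENNReal.ofReal_natCast]

theorem pf_FB : T_FB := by
  classical
  intro k m d g n I J χ θ hχ z hz
  have hfac : ∀ l, nfac (g l) n (l ∈ I.1) (l ∈ J.1) (θ l) (z l) =
      ∑ x ∈ ((g l).fib n (z l)).roots.toFinset, (((g l).fib n (z l)).rootMultiplicity x : ℝ≥0∞) *
        (θ l x / ((if l ∈ I.1 then ‖(g l).der n x‖ₑ else 1) *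
          (if l ∈ J.1 then ‖(g l).der n x‖ₑ else 1))) := by
    intro l
    unfold nfac
    rw [Finset.sum_multiset_map_count]
    refine Finset.sum_congr rfl fun x _ => ?_
    rw [count_roots, nsmul_eq_mul]
  rw [Finset.prod_congr rfl fun l _ => hfac l, Finset.prod_univ_sum]
  unfold pushCoeff fibSum
  refine le_trans (enorm_sum_le _ _) (Finset.sum_le_sum fun x hx => ?_)
  have hx' : ∀ l, x l ∈ ((g l).fib n (z l)).roots := fun l =>
    Multiset.mem_toFinset.1 (Fintype.mem_piFinset.1 hx l)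
  rw [enorm_mul, en_prod, Finset.prod_mul_distrib]
  have h1 : ∏ l, ‖(((g l).fib n (z l)).rootMultiplicity (x l) : ℂ)‖ₑ =
      ∏ l, (((g l).fib n (z l)).rootMultiplicity (x l) : ℝ≥0∞) :=
    Finset.prod_congr rfl fun l _ => en_nat _
  rw [h1]
  refine mul_le_mul' le_rfl ?_
  have hI : ∀ l ∈ I.1, (g l).der n (x l) ≠ 0 := fun l hl => hz l (Or.inl hl) _ (hx' l)
  have hJ : ∀ l ∈ J.1, (g l).der n (x l) ≠ 0 := fun l hl => hz l (Or.inr hl) _ (hx' l)
  have hden : (∏ i ∈ I.1, (g i).der n (x i)) * conj (∏ j ∈ J.1, (g j).der n (x j)) ≠ 0 := by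
    refine mul_ne_zero (Finset.prod_ne_zero_iff.2 hI) ?_
    rw [Ne, map_eq_zero]
    exact Finset.prod_ne_zero_iff.2 hJ
  have hD : ‖(∏ i ∈ I.1, (g i).der n (x i)) * conj (∏ j ∈ J.1, (g j).der n (x j))‖ₑ =
      ∏ l, ((if l ∈ I.1 then ‖(g l).der n (x l)‖ₑ else 1) *
          (if l ∈ J.1 then ‖(g l).der n (x l)‖ₑ else 1)) := by
    rw [Finset.prod_mul_distrib, Finset.prod_ite_mem, Finset.univ_inter, Finset.prod_ite_mem,
      Finset.univ_inter, enorm_mul, en_conj, en_prod, en_prod]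
  show ‖χ x / ((∏ i ∈ I.1, (g i).der n (x i)) * conj (∏ j ∈ J.1, (g j).der n (x j)))‖ₑ ≤ _
  rw [div_eq_mul_inv, enorm_mul, enorm_inv hden, hD, ENNReal.prod_inv_distrib]
  · refine le_trans (mul_le_mul' (hχ x) le_rfl) ?_
    rw [← Finset.prod_mul_distrib]
    refine Finset.prod_le_prod' fun l _ => ?_
    rw [div_eq_mul_inv]
  · intro a _ b _ _
    left
    refine mul_ne_zero ?_ ?_
    · by_cases h : a ∈ I.1
      · rw [if_pos h]
        exact fun h2 => hI a h (enorm_eq_zero.1 h2)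
      · rw [if_neg h]
        exact one_ne_zero
    · by_cases h : a ∈ J.1
      · rw [if_pos h]
        exact fun h2 => hJ a h (enorm_eq_zero.1 h2)
      · rw [if_neg h]
        exact one_ne_zero

end Pool.Agent.H34.UDA
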