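import Pool.Agent.H83.UE.Targets

/-!
# (FP) the direct image of a product is a product.  helper34
-/

set_option autoImplicit false

open Polynomial MeasureTheory Filter Topology
open scoped OnePoint ComplexConjugate ComplexOrder Laplacian
open Pool.Agent.H83.UE

namespace Pool.Agent.H34.UDA

theorem pf_FP : T_FP := by
  intro k m d g n I J u z
  have hfac : ∀ l, fac (g l) n (l ∈ I.1) (l ∈ J.1) (u l) (z l) =
      ∑ x ∈ ((g l).fib n (z l)).roots.toFinset, (((g l).fib n (z l)).rootMultiplicity x : ℂ) *
        (u l x / ((if l ∈ I.1 then (g l).der n x else 1) *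
          conj (if l ∈ J.1 then (g l).der n x else 1))) := by
    intro l
    unfold fac
    rw [Finset.sum_multiset_map_count]
    refine Finset.sum_congr rfl fun x _ => ?_
    rw [count_roots, nsmul_eq_mul]
  rw [Finset.prod_congr rfl fun l _ => hfac l, Finset.prod_univ_sum]
  unfold pushCoeff fibSum
  refine Finset.sum_congr rfl fun x _ => ?_
  rw [Finset.prod_mul_distrib, Finset.prod_div_distrib, Finset.prod_mul_distrib]
  have h1 : ∏ l, (if l ∈ I.1 then (g l).der n (x l) else 1) = ∏ i ∈ I.1, (g i).der n (x i) := by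
    rw [Finset.prod_ite_mem, Finset.univ_inter]
  have h2 : ∏ l, conj (if l ∈ J.1 then (g l).der n (x l) else 1) =
      conj (∏ i ∈ J.1, (g i).der n (x i)) := by
    rw [← map_prod, Finset.prod_ite_mem, Finset.univ_inter]
  rw [h1, h2]

end Pool.Agent.H34.UDA
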