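import Pool.Agent.H83.UE.Targets

/-!
# (NUL) the coordinates avoid finite sets almost everywhere.  helper34
-/

set_option autoImplicit false

open Polynomial MeasureTheory Filter Topology
open scoped OnePoint ComplexConjugate ComplexOrder Laplacian ENNReal
open Pool.Agent.H83.UE

namespace Pool.Agent.H34.UDA

/-- the diagonal coefficient vanishes almost everywhere on `z_l ∈ E` -/
theorem nul_diag (h1 : T_MAR) (k m : ℕ) (S : Current k m) (J : Idx k m) (l : Fin k)
    (E : Finset ℂ) (hl : l ∈ J.1) : ∀ᵐ z ∂S.σ, z l ∈ E → (S.h z J J).re ≤ 0 := by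
  classical
  obtain ⟨ρ, hρ⟩ : ∃ ρ : Fin k → ℂ → ℝ≥0∞, ∀ j x, ρ j x =
      if j = l then (E : Set ℂ).indicator (fun _ => (1 : ℝ≥0∞)) x else 1 := ⟨_, fun _ _ => rfl⟩
  have hE : MeasurableSet (E : Set ℂ) := E.finite_toSet.measurableSet
  have hm : ∀ j, Measurable (ρ j) := by
    intro j
    by_cases hj : j = l
    · have h : ρ j = (E : Set ℂ).indicator (fun _ => (1 : ℝ≥0∞)) := by
        funext x
        rw [hρ, if_pos hj]
      rw [h]
      exact measurable_const.indicator hE
    · have h : ρ j = fun _ => (1 : ℝ≥0∞) := by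
        funext x
        rw [hρ, if_neg hj]
      rw [h]
      exact measurable_const
  have hint := h1 k m S J ρ hm
  have h0 : ∫⁻ x, ρ l x = 0 := by
    have h : ρ l = (E : Set ℂ).indicator (fun _ => (1 : ℝ≥0∞)) := by
      funext x
      rw [hρ, if_pos rfl]
    rw [h, lintegral_indicator_const hE, E.finite_toSet.measure_zero, mul_zero]
  rw [Finset.prod_eq_zero hl h0, mul_zero] at hint
  have hmeas : Measurable fun z : Fin k → ℂ => (∏ j ∈ J.1, ρ j (z j)) *
      ENNReal.ofReal (S.h z J J).re := by
    refine Measurable.mul ?_ ?_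
    · exact Finset.measurable_prod _ fun j _ => (hm j).comp (measurable_pi_apply j)
    · exact ENNReal.measurable_ofReal.comp (Complex.measurable_re.comp (S.meas J J))
  rw [lintegral_eq_zero_iff hmeas] at hint
  filter_upwards [hint] with z hz hzl
  have h2 : ∏ j ∈ J.1, ρ j (z j) = 1 := by
    refine Finset.prod_eq_one fun j _ => ?_
    rw [hρ]
    by_cases hj : j = l
    · rw [if_pos hj, hj, Set.indicator_of_mem (Finset.mem_coe.2 hzl)]
    · rw [if_neg hj]
  rw [h2, one_mul, Pi.zero_apply, ENNReal.ofReal_eq_zero] at hz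
  exact hz

/-- a positive semidefinite matrix with a vanishing diagonal entry has a vanishing column -/
theorem nul_col {ι : Type} [Fintype ι] [DecidableEq ι] {A : Matrix ι ι ℂ} (hA : A.PosSemidef)
    (J : ι) (hJ : (A J J).re ≤ 0) (I : ι) : A I J = 0 := by
  have hd : 0 ≤ A J J := hA.diag_nonneg
  have hd0 : A J J = 0 := by
    rw [Complex.le_def] at hd
    apply Complex.ext
    · exact le_antisymm hJ hd.1
    · exact hd.2.symm
  have h1 : star (Pi.single J (1 : ℂ)) ⬝ᵥ A.mulVec (Pi.single J 1) = 0 := by
    rw [Matrix.mulVec_single_one, ← Pi.single_star, star_one, single_dotProduct, one_mul]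
    exact hd0
  have h2 := (hA.dotProduct_mulVec_zero_iff (Pi.single J (1 : ℂ))).1 h1
  have h3 := congrFun h2 I
  rw [Matrix.mulVec_single_one] at h3
  exact h3

theorem pf_NUL (h1 : T_MAR) : T_NUL := by
  classical
  intro k m S I J l E hl
  rcases hl with hl | hl
  · filter_upwards [nul_diag h1 k m S I l E hl] with z hz hzl
    have h2 := nul_col (S.psd z) I (hz hzl) J
    have h3 := (S.psd z).isHermitian.apply I J
    rw [← h3, h2, star_zero]
  · filter_upwards [nul_diag h1 k m S J l E hl] with z hz hzl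
    exact nul_col (S.psd z) J (hz hzl) I

end Pool.Agent.H34.UDA
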