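import Pool.Agent.H83.UE.Targets2

/-!
# (PK) equidistribution for Ueda maps of projective space.  helper34
-/

set_option autoImplicit false

open Polynomial MeasureTheory Filter Topology Set
open scoped OnePoint ComplexConjugate ComplexOrder Laplacian ENNReal Nat
open Pool.Agent.H83.UE

namespace Pool.Agent.H34.UDA

/-- the measures of a bounded open set agree -/
theorem pk_open_bdd (μ ν : Measure ℂ) [IsProbabilityMeasure μ] [IsProbabilityMeasure ν]
    (h : ∀ u : ℂ → ℝ, ContDiff ℝ 2 u → HasCompactSupport u → ∫ x, u x ∂μ = ∫ x, u x ∂ν)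
    (s : Set ℂ) (hs : IsOpen s) (hb : Bornology.IsBounded s) : μ s = ν s := by
  obtain ⟨f, hf1, hf2, hf3⟩ := hs.exists_contDiff_support_eq (n := 2)
  have h0 : ∀ x, 0 ≤ f x ∧ f x ≤ 1 := fun x => hf3 (mem_range_self x)
  have hz : ∀ x, x ∉ s → f x = 0 := by
    intro x hx
    rw [← hf1] at hx
    exact Function.notMem_support.1 hx
  have hp : ∀ x, x ∈ s → 0 < f x := by
    intro x hx
    refine lt_of_le_of_ne (h0 x).1 (Ne.symm ?_)
    rw [← hf1] at hx
    exact hx
  have hcd : ∀ k : ℕ, ContDiff ℝ 2 fun x => 1 - (1 - f x) ^ k := fun k =>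
    contDiff_const.sub ((contDiff_const.sub hf2).pow k)
  have hsup : ∀ k : ℕ, HasCompactSupport fun x => 1 - (1 - f x) ^ k := by
    intro k
    refine HasCompactSupport.intro (hb.isCompact_closure) fun x hx => ?_
    have hx2 : x ∉ s := fun h => hx (subset_closure h)
    rw [hz x hx2]
    simp
  have key : ∀ (ρ : Measure ℂ) [IsProbabilityMeasure ρ],
      Tendsto (fun k : ℕ => ∫ x, (1 - (1 - f x) ^ k) ∂ρ) atTop (𝓝 (ρ.real s)) := by
    intro ρ _
    have h1 : ρ.real s = ∫ x, s.indicator (fun _ => (1 : ℝ)) x ∂ρ := by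
      rw [integral_indicator_const _ hs.measurableSet]
      simp
    rw [h1]
    refine tendsto_integral_of_dominated_convergence (fun _ => 1) ?_ (integrable_const _) ?_ ?_
    · intro k
      exact ((hcd k).continuous).aestronglyMeasurable
    · intro k
      refine Eventually.of_forall fun x => ?_
      have h2 : 0 ≤ (1 - f x) ^ k := pow_nonneg (by linarith [(h0 x).2]) k
      have h3 : (1 - f x) ^ k ≤ 1 := pow_le_one₀ (by linarith [(h0 x).2]) (by linarith [(h0 x).1])
      rw [Real.norm_eq_abs, abs_le]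
      constructor <;> linarith
    · refine Eventually.of_forall fun x => ?_
      by_cases hx : x ∈ s
      · rw [indicator_of_mem hx]
        have h2 : Tendsto (fun k : ℕ => (1 - f x) ^ k) atTop (𝓝 0) :=
          tendsto_pow_atTop_nhds_zero_of_lt_one (by linarith [(h0 x).2]) (by linarith [hp x hx])
        have h3 := h2.const_sub 1
        rw [sub_zero] at h3
        exact h3
      · rw [indicator_of_notMem hx, hz x hx]
        simp
  have h1 := key μ
  have h2 := key ν
  have h3 : (fun k : ℕ => ∫ x, (1 - (1 - f x) ^ k) ∂μ) = fun k : ℕ =>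
      ∫ x, (1 - (1 - f x) ^ k) ∂ν := funext fun k => h _ (hcd k) (hsup k)
  rw [h3] at h1
  have h4 := tendsto_nhds_unique h1 h2
  exact (measureReal_eq_measureReal_iff).1 h4

/-- functions of class `C²` with compact support determine a probability measure -/
theorem pk_ext (μ ν : Measure ℂ) [IsProbabilityMeasure μ] [IsProbabilityMeasure ν]
    (h : ∀ u : ℂ → ℝ, ContDiff ℝ 2 u → HasCompactSupport u → ∫ x, u x ∂μ = ∫ x, u x ∂ν) :
    μ = ν := by
  refine ext_of_generate_finite {s : Set ℂ | IsOpen s} BorelSpace.measurable_eq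
    isPiSystem_isOpen ?_ (by rw [measure_univ, measure_univ])
  intro s hs
  have hm : Monotone fun n : ℕ => s ∩ Metric.ball (0 : ℂ) n := by
    intro a b hab
    exact inter_subset_inter_right _ (Metric.ball_subset_ball (Nat.cast_le.2 hab))
  have hu : s = ⋃ n : ℕ, s ∩ Metric.ball (0 : ℂ) n := by
    rw [← inter_iUnion, Metric.iUnion_ball_nat, inter_univ]
  rw [hu, hm.measure_iUnion, hm.measure_iUnion]
  refine iSup_congr fun n => ?_
  exact pk_open_bdd μ ν h _ (IsOpen.inter hs Metric.isOpen_ball)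
    (Metric.isBounded_ball.subset inter_subset_right)

theorem pk_green {d : ℕ} (g : RatMap d) (μ ν : Measure ℂ) (hμ : g.IsGreenMeasure μ)
    (hν : g.IsGreenMeasure ν) : μ = ν := by
  obtain ⟨h1, G, -, hG, hu⟩ := hμ
  obtain ⟨h2, G', -, hG', hu'⟩ := hν
  have hGG : G = G' := funext fun x => tendsto_nhds_unique (hG x) (hG' x)
  refine pk_ext μ ν fun u hc hs => ?_
  rw [hu u hc hs, hu' u hc hs, hGG]

theorem pf_PK (h1 : T_MAIN) (h2 : T_SL) (h3 : T_TF) : T_PK := by
  intro k m d hd hmk g hg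
  obtain ⟨μ1, hμ1, -⟩ := h1 1 0 d hd (Nat.zero_le _) (fun _ => g) (fun _ => hg)
  obtain ⟨μ, hμ, hlim, -⟩ := h1 k m d hd hmk (fun _ => g) (fun _ => hg)
  obtain ⟨ν, hν⟩ : ∃ ν, ν = μ1 0 := ⟨_, rfl⟩
  have hνg : g.IsGreenMeasure ν := by
    rw [hν]
    exact hμ1 0
  have hμν : μ = fun _ => ν := funext fun l => pk_green g _ _ (hμ l) hνg
  refine ⟨ν, hνg, ?_⟩
  intro V δ hV L χ hχ hχs
  obtain ⟨T, hc, hT⟩ := h2 k m d (by omega) hmk g V δ hV
  have hint : ∀ n : ℕ, ∀ χ : (Fin k → ℂ) → ℂ, Continuous χ → HasCompactSupport χ → ∀ I J,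
      Integrable (fun z => pushCoeff (fun _ => g) n I J (tform L χ I J) z * T.h z I J) T.σ := by
    intro n χ hχ hχs I J
    obtain ⟨-, h4, h5⟩ := h3 k m L χ I J hχ hχs
    exact (hlim T I J _ h4 h5).1 n
  have hsl : ∀ n : ℕ, ((d : ℂ) ^ ((k - m) * n))⁻¹ * slice g n V L χ =
      (k ! : ℂ)⁻¹ * ∑ I : Idx k m, ∑ J : Idx k m,
        pairing (fun _ => g) n T I J (tform L χ I J) := by
    intro n
    rw [hT n L (hint n) χ hχ hχs, mul_left_comm, Finset.mul_sum]
    congr 1
    refine Finset.sum_congr rfl fun I _ => ?_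
    rw [Finset.mul_sum]
    rfl
  have hfun : (fun n => ((d : ℂ) ^ ((k - m) * n))⁻¹ * slice g n V L χ) = fun n =>
      (k ! : ℂ)⁻¹ * ∑ I : Idx k m, ∑ J : Idx k m,
        pairing (fun _ => g) n T I J (tform L χ I J) := funext hsl
  rw [hfun]
  have hl : Tendsto (fun n => (k ! : ℂ)⁻¹ * ∑ I : Idx k m, ∑ J : Idx k m,
        pairing (fun _ => g) n T I J (tform L χ I J)) atTop (𝓝 ((k ! : ℂ)⁻¹ *
        ∑ I : Idx k m, ∑ J : Idx k m, limVal μ T I J (tform L χ I J))) := by
    refine Tendsto.const_mul _ (tendsto_finsetSum _ fun I _ => tendsto_finsetSum _ fun J _ => ?_)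
    obtain ⟨-, h4, h5⟩ := h3 k m L χ I J hχ hχs
    exact (hlim T I J _ h4 h5).2
  have hval : (k ! : ℂ)⁻¹ * ∑ I : Idx k m, ∑ J : Idx k m, limVal μ T I J (tform L χ I J) =
      δ * greenSlice ν L χ := by
    have h6 : ∀ I : Idx k m, ∑ J : Idx k m, limVal μ T I J (tform L χ I J) =
        ((k - m)! * δ : ℂ) * ∫ z, χ (coef z) *
          (‖minor (fun x => L (coef x)) I z‖ ^ 2 : ℝ) ∂(limMeas (fun _ => ν) I) := by
      intro I
      have h7 : ∀ J : Idx k m, limVal μ T I J (tform L χ I J) =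
          if I = J then ((k - m)! * δ : ℂ) * ∫ z, χ (coef z) *
          (‖minor (fun x => L (coef x)) I z‖ ^ 2 : ℝ) ∂(limMeas (fun _ => ν) I) else 0 := by
        intro J
        unfold limVal
        by_cases hIJ : I = J
        · rw [if_pos hIJ, if_pos hIJ, ← hIJ, hc I, hμν]
          have h8 : (((((k - m)! : NNReal) * (δ : NNReal) : NNReal) : ℝ) : ℂ) =
              ((k - m)! * δ : ℂ) := by
            push_cast
            rfl
          refine congrArg₂ (· * ·) h8 (integral_congr_ae (Eventually.of_forall fun z => ?_))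
          simp only [tform]
          rw [Complex.mul_conj, Complex.normSq_eq_norm_sq]
        · rw [if_neg hIJ, if_neg hIJ]
      rw [Finset.sum_congr rfl fun J _ => h7 J, Finset.sum_ite_eq, if_pos (Finset.mem_univ _)]
    rw [Finset.sum_congr rfl fun I _ => h6 I, ← Finset.mul_sum]
    unfold greenSlice
    ring
  rw [hval] at hl
  exact hl

end Pool.Agent.H34.UDA
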